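import Pool.Agent.H6.Tag

namespace Pool.Agent.Results.MP_b0da28_lc.NoReduction

open Pool.Agent.H6.Tag Filter Topology Set

theorem tend {x : ℕ → ℕ → ℕ} {a : ℕ → ℕ} (h : ∀ m, Ag m (x m) a) : Tendsto x atTop (𝓝 a) :=
  tendsto_pi_nhds.2 fun i => tendsto_const_nhds.congr'
    ((eventually_gt_atTop i).mono fun m hm => (h m i hm).symm)

theorem near (a : ℕ → ℕ) (k : ℕ) : ∀ᶠ x in 𝓝 a, Ag k x a :=
  (eventually_all_finite (finite_Iio k)).2 fun i _ =>
    (continuous_apply i).continuousAt.eventually ((isOpen_discrete {a i}).mem_nhds rfl)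

theorem opAg (a : ℕ → ℕ) (k : ℕ) : IsOpen {x | Ag k x a} :=
  isOpen_iff_mem_nhds.2 fun x hx => (near x k).mono fun _ h => h.trans hx

theorem clAg (a : ℕ → ℕ) (k : ℕ) : IsClosed {x | Ag k x a} := by
  simp only [Ag, ofPred_forall]
  exact isClosed_iInter fun i => isClosed_iInter fun _ =>
    isClosed_eq (continuous_apply i) continuous_const

theorem clR : IsClosed {z : (ℕ → ℕ) × (ℕ → ℕ) | R z.1 z.2} := by
  refine isClosed_of_closure_subset fun z hz => ?_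
  have h : ∀ k, ∃ a b, R a b ∧ Ag k a z.1 ∧ Ag k b z.2 := fun k => by
    obtain ⟨w, h1, h2⟩ := mem_closure_iff_nhds.1 hz _
      ((continuous_fst.continuousAt.eventually (near z.1 k)).and
        (continuous_snd.continuousAt.eventually (near z.2 k)))
    exact ⟨w.1, w.2, h2, h1⟩
  refine ⟨fun i => ?_, fun u n h1 h2 h3 => ?_⟩
  · obtain ⟨a, b, h1, h2, h3⟩ := h (pre z.2 i + 1)
    rw [← h2 _ (by omega), ← h3.pre i (by have := le_pre z.2 i; omega)]
    exact h1.1 i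
  · obtain ⟨a, b, h4, h5, h6⟩ := h (ch n u + 1)
    have := ch_gt n u
    rw [← h5 _ (by omega)] at h2 h3
    rw [← h6 _ (by omega), ← h6 u (by omega)]
    exact h4.2 u n (by rwa [h6.on (by omega)]) h2 h3

def Γ : Set ((ℕ → ℕ) × (ℕ → ℕ)) := {z | G z.1 z.2}

theorem clΓ : IsClosed Γ := clR.inter (clR.preimage continuous_swap)

instance : PolishSpace Γ := clΓ.polishSpace

theorem c1 : Continuous fun γ : Γ => γ.1.1 := by fun_prop
theorem c2 : Continuous fun γ : Γ => γ.1.2 := by fun_prop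

def C (a b : ℕ → ℕ) (k : ℕ) : Set Γ := {δ | Ag k δ.1.1 a ∧ Ag k δ.1.2 b}

theorem opC (a b : ℕ → ℕ) (k : ℕ) : IsOpen (C a b k) :=
  ((opAg a k).preimage c1).inter ((opAg b k).preimage c2)

theorem clC (a b : ℕ → ℕ) (k : ℕ) : IsClosed (C a b k) :=
  ((clAg a k).preimage c1).inter ((clAg b k).preimage c2)

theorem basis (γ : Γ) {s : Set Γ} (hs : s ∈ 𝓝 γ) : ∃ k, C γ.1.1 γ.1.2 k ⊆ s := by
  by_contra hn
  simp only [not_exists, not_subset] at hn
  choose δ h1 h2 using hn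
  have : Tendsto δ atTop (𝓝 γ) := tendsto_subtype_rng.2
    ((tend fun m => (h1 m).1).prodMk_nhds (tend fun m => (h1 m).2))
  obtain ⟨m, hm⟩ := (this.eventually hs).exists
  exact h2 m hm

theorem paof {W : (ℕ → ℕ) → (ℕ → ℕ) → Prop} {j : ℕ} {p q : ℕ → ℕ} (Φ : ℕ → Set (ℕ → ℕ))
    (hc : ∀ n, IsClosed (Φ n))
    (h : ∀ x y, G x y → Ag j x p → Ag j y q → (W x y ↔ ∃ n, x ∈ Φ n)) : PA W j p q := by
  intro a b k hk ha hb g hC
  have hd := dense_iUnion_interior_of_closed (X := Γ)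
    (f := fun o : Option ℕ => o.elim (C a b k)ᶜ fun n => {δ | δ.1.1 ∈ Φ n})
    (by
      rintro (_ | n)
      · exact (opC a b k).isClosed_compl
      · exact (hc n).preimage c1)
    (eq_univ_of_forall fun δ => by
      by_cases h1 : δ ∈ C a b k
      · obtain ⟨n, hn⟩ := (h _ _ δ.2 ((h1.1.mono hk).trans ha) ((h1.2.mono hk).trans hb)).1
          (hC _ _ δ.2 h1.1 h1.2)
        exact mem_iUnion.2 ⟨some n, hn⟩
      · exact mem_iUnion.2 ⟨none, h1⟩)
  obtain ⟨γ, h1, h2⟩ := hd.inter_open_nonempty _ (opC a b k)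
    ⟨⟨(a, b), g⟩, fun _ _ => rfl, fun _ _ => rfl⟩
  obtain ⟨_ | n, h3⟩ := mem_iUnion.1 h2
  · exact (interior_subset h3 h1).elim
  obtain ⟨l, hl⟩ := basis γ (mem_interior_iff_mem_nhds.1 h3)
  refine ⟨_, _, k + l, by omega, γ.2, h1.1, h1.2, fun x y h4 h5 h6 h7 => ?_⟩
  choose x' y' h7 h8 h9 h10 using h7
  exact (h x y h4 h5 h6).2 ⟨n, (hc n).mem_of_tendsto (tend h8) (Eventually.of_forall fun m =>
    hl (a := ⟨(x' m, y' m), h7 m⟩) ⟨(h9 m).mono (by omega), (h10 m).mono (by omega)⟩)⟩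

theorem dens {W : (ℕ → ℕ) → (ℕ → ℕ) → Prop} {j : ℕ} {p q : ℕ → ℕ} (hW : PA W j p q)
    (hV : PA (fun x y => W y x) j q p) {γ δ : Γ} (hγ : γ ∈ C p q j) (hδ : δ ∈ C p q j)
    (h : δ ∈ interior {δ : Γ | W δ.1.1 δ.1.2}) :
    γ ∈ closure (interior {δ : Γ | W δ.1.1 δ.1.2}) := by
  refine mem_closure_iff_nhds.2 fun s hs => ?_
  obtain ⟨k, hk⟩ := basis γ hs
  obtain ⟨l, hl⟩ := basis δ (mem_interior_iff_mem_nhds.1 h)
  obtain ⟨a, b, ⟨g, m, -, h1⟩, h2, h3⟩ := law hW hV γ.2 hγ.1 hγ.2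
    ⟨δ.2, l, l.zero_le, fun x y h1 h2 h3 => hl (a := ⟨(x, y), h1⟩) ⟨h2, h3⟩⟩ hδ.1 hδ.2 k
  exact ⟨⟨(a, b), g⟩, hk ⟨h2.mono (by omega), h3.mono (by omega)⟩,
    mem_interior.2 ⟨C a b m, fun ε hε => h1 _ _ ε.2 hε.1 hε.2, opC a b m,
      fun _ _ => rfl, fun _ _ => rfl⟩⟩

def cons (c : ℕ) (a : ℕ → ℕ) : ℕ → ℕ
  | 0 => c
  | n + 1 => a n

def tail (z : ℕ → ℕ) (n : ℕ) : ℕ := z (n + 1)

theorem cC (c : ℕ) : Continuous (cons c) := continuous_pi fun
  | 0 => continuous_const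
  | n + 1 => continuous_apply n

theorem cT : Continuous tail := continuous_pi fun n => continuous_apply (n + 1)

theorem ht {z w : ℕ → ℕ} (h1 : z 0 = w 0) (h2 : tail z = tail w) : z = w := funext fun
  | 0 => h1
  | n + 1 => congrFun h2 n

def E (z w : ℕ → ℕ) : Prop := z = w ∨ (z 0 = 0 ∧ w 0 = 1 ∧ G (tail z) (tail w)) ∨
  (z 0 = 1 ∧ w 0 = 0 ∧ G (tail w) (tail z))

theorem eqv : Equivalence E := by
  refine ⟨fun _ => Or.inl rfl, ?_, ?_⟩
  · rintro x y (rfl | h | h)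
    · exact Or.inl rfl
    · exact Or.inr (Or.inr ⟨h.2.1, h.1, h.2.2⟩)
    · exact Or.inr (Or.inl ⟨h.2.1, h.1, h.2.2⟩)
  · rintro x y z (rfl | h | h) h'
    · exact h'
    · rcases h' with rfl | h' | h'
      · exact Or.inr (Or.inl h)
      · omega
      · exact Or.inl (ht (by omega) (uniq h.2.2.2 h'.2.2.2))
    · rcases h' with rfl | h' | h'
      · exact Or.inr (Or.inr h)
      · exact Or.inl (ht (by omega) (uniq h.2.2.1 h'.2.2.1))
      · omega

theorem clE : IsClosed {z : (ℕ → ℕ) × (ℕ → ℕ) | E z.1 z.2} := by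
  have h1 : ∀ c, IsClosed {z : (ℕ → ℕ) × (ℕ → ℕ) | z.1 0 = c} :=
    fun c => isClosed_eq (by fun_prop) continuous_const
  have h2 : ∀ c, IsClosed {z : (ℕ → ℕ) × (ℕ → ℕ) | z.2 0 = c} :=
    fun c => isClosed_eq (by fun_prop) continuous_const
  exact (isClosed_eq continuous_fst continuous_snd).union (((h1 0).inter ((h2 1).inter
    (clΓ.preimage ((cT.comp continuous_fst).prodMk (cT.comp continuous_snd))))).union
    ((h1 1).inter ((h2 0).inter
    (clΓ.preimage ((cT.comp continuous_snd).prodMk (cT.comp continuous_fst))))))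

theorem smooth : ∃ g : (ℕ → ℕ) → ℕ → ℕ, Measurable g ∧ ∀ x y, E x y ↔ g x = g y := by
  have inj : Function.Injective fun γ : Γ => cons 1 γ.1.2 := fun γ δ h => by
    have h1 : γ.1.2 = δ.1.2 := congrArg tail h
    exact Subtype.ext (Prod.ext (uniq γ.2.2 (h1 ▸ δ.2.2)) h1)
  refine ⟨Function.extend (fun γ : Γ => cons 1 γ.1.2) (fun γ => cons 0 γ.1.1) id,
    (((cC 1).comp c2).measurableEmbedding inj).measurable_extend ((cC 0).comp c1).measurable
      measurable_id, ?_⟩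
  set g := Function.extend (fun γ : Γ => cons 1 γ.1.2) (fun γ => cons 0 γ.1.1) id
  have h1 : ∀ x, E x (g x) := fun x => by
    by_cases h : ∃ γ : Γ, cons 1 γ.1.2 = x
    · obtain ⟨γ, rfl⟩ := h
      rw [show g _ = _ from inj.extend_apply _ _ γ]
      exact Or.inr (Or.inr ⟨rfl, rfl, γ.2⟩)
    · exact Or.inl (Function.extend_apply' _ id _ h).symm
  have h2 : ∀ x y, x 0 = 0 → y 0 = 1 → G (tail x) (tail y) → g x = g y := fun x y a b c => by
    have e : y = cons 1 (tail y) := ht b rfl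
    rw [e, show g (cons 1 (tail y)) = _ from inj.extend_apply _ _ ⟨(tail x, tail y), c⟩,
      show g x = x from Function.extend_apply' _ _ _ ?_]
    · exact ht a rfl
    · rintro ⟨γ, rfl⟩
      simp [cons] at a
  refine fun x y => ⟨?_, fun h => eqv.trans (h1 x) (h ▸ eqv.symm (h1 y))⟩
  rintro (rfl | h | h)
  · rfl
  · exact h2 x y h.1 h.2.1 h.2.2
  · exact (h2 y x h.2.1 h.1 h.2.2).symm

theorem nored (f : (ℕ → ℕ) → ℕ → ℕ → ℕ) (hf : Continuous f) :
    ¬ ∀ x y, E x y ↔ range (f x) = range (f y) := by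
  intro H
  have cf : ∀ c n, Continuous fun x => f (cons c x) n :=
    fun c n => (continuous_apply n).comp (hf.comp (cC c))
  have rg : ∀ x y, G x y → range (f (cons 0 x)) = range (f (cons 1 y)) :=
    fun x y h => (H _ _).1 (Or.inr (Or.inl ⟨rfl, rfl, h⟩))
  have const : ∀ n m (γ : Γ) k, C γ.1.1 γ.1.2 k ⊆ {δ | f (cons 0 δ.1.1) n = f (cons 1 δ.1.2) m} →
      ∀ δ ∈ C γ.1.1 γ.1.2 k, f (cons 0 γ.1.1) n = f (cons 0 δ.1.1) n := by
    intro n m γ k h δ hδ
    funext i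
    have o : ∀ c n v, IsClopen {x | f (cons c x) n i = v} := fun c n v =>
      (isClopen_discrete {v}).preimage ((continuous_apply i).comp (cf c n))
    have h0 := o 0 n (f (cons 0 δ.1.1) n i)
    have h1 := h0.preimage c1
    have h2 := dens (W := fun x _ => f (cons 0 x) n i = f (cons 0 δ.1.1) n i)
      (paof _ (fun _ => h0.1) fun x y _ _ _ => by simp)
      (paof _ (fun _ => (o 1 m (f (cons 0 δ.1.1) n i)).1) fun y x a b c => by
        have : f (cons 0 x) n = f (cons 1 y) m := h (a := ⟨(x, y), a.symm⟩) ⟨c, b⟩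
        simp [this])
      (γ := γ) ⟨fun _ _ => rfl, fun _ _ => rfl⟩ hδ (h1.2.interior_eq.symm ▸ rfl)
    exact closure_minimal interior_subset h1.1 h2
  have r1 : ∀ n, ∀ᶠ γ in residual Γ,
      γ ∈ ⋃ m, interior {δ : Γ | f (cons 0 δ.1.1) n = f (cons 1 δ.1.2) m} := fun n =>
    residual_of_dense_open (isOpen_iUnion fun _ => isOpen_interior)
      (dense_iUnion_interior_of_closed
        (fun m => isClosed_eq ((cf 0 n).comp c1) ((cf 1 m).comp c2))
        (eq_univ_of_forall fun γ => by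
          obtain ⟨m, hm⟩ : f (cons 0 γ.1.1) n ∈ range (f (cons 1 γ.1.2)) :=
            rg _ _ γ.2 ▸ mem_range_self n
          exact mem_iUnion.2 ⟨m, hm.symm⟩))
  have r2 : ∀ d, ∀ᶠ γ in residual Γ, (d ∈ range (f (cons 0 γ.1.1)) ↔
      (interior {δ : Γ | d ∈ range (f (cons 0 δ.1.1))}).Nonempty) := fun d => by
    by_cases h : (interior {δ : Γ | d ∈ range (f (cons 0 δ.1.1))}).Nonempty
    · obtain ⟨δ, hδ⟩ := id h
      have : Dense (interior {δ : Γ | d ∈ range (f (cons 0 δ.1.1))}) := fun γ =>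
        dens (W := fun x _ => d ∈ range (f (cons 0 x))) (j := 0) (p := 0) (q := 0)
          (paof _ (fun n => isClosed_eq (cf 0 n) continuous_const) fun _ _ _ _ _ => Iff.rfl)
          (paof _ (fun n => isClosed_eq (cf 1 n) continuous_const) fun y x a _ _ => by
            rw [rg x y a.symm]; rfl)
          ⟨fun _ h => by omega, fun _ h => by omega⟩ ⟨fun _ h => by omega, fun _ h => by omega⟩ hδ
      filter_upwards [residual_of_dense_open isOpen_interior this] with γ hγ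
      exact iff_of_true (interior_subset (s := {δ : Γ | d ∈ range (f (cons 0 δ.1.1))}) hγ) h
    · have : ∀ n, ∀ᶠ γ in residual Γ, γ ∈ {δ : Γ | f (cons 0 δ.1.1) n = d}ᶜ := fun n =>
        residual_of_dense_open (isClosed_eq ((cf 0 n).comp c1) continuous_const).isOpen_compl
          (interior_eq_empty_iff_dense_compl.1 (not_nonempty_iff_eq_empty.1 fun h1 =>
            h (h1.mono (interior_mono fun δ hδ => ⟨n, hδ⟩))))
      filter_upwards [eventually_countable_forall.2 this] with γ hγ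
      exact iff_of_false (fun ⟨n, hn⟩ => hγ n hn) h
  obtain ⟨a0, b0, g0, h0⟩ := two 0
  obtain ⟨a1, b1, g1, h1⟩ := two 1
  have : Nonempty Γ := ⟨⟨(a0, b0), g0⟩⟩
  have hd := dense_of_mem_residual ((eventually_countable_forall.2 r1).and
    (eventually_countable_forall.2 fun n => eventually_countable_forall.2 fun i =>
      r2 (f (cons 0 (TopologicalSpace.denseSeq Γ i).1.1) n)))
  obtain ⟨γ, h2, h3⟩ := hd.inter_open_nonempty _ (opC a0 b0 1)
    ⟨⟨(a0, b0), g0⟩, fun _ _ => rfl, fun _ _ => rfl⟩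
  obtain ⟨δ, h4, h5⟩ := hd.inter_open_nonempty _ (opC a1 b1 1)
    ⟨⟨(a1, b1), g1⟩, fun _ _ => rfl, fun _ _ => rfl⟩
  have key : ∀ γ : Γ, (∀ n, γ ∈ ⋃ m, interior {δ : Γ | f (cons 0 δ.1.1) n = f (cons 1 δ.1.2) m}) →
      ∀ n, ∃ i, f (cons 0 γ.1.1) n = f (cons 0 (TopologicalSpace.denseSeq Γ i).1.1) n := by
    intro γ h n
    obtain ⟨m, hm⟩ := mem_iUnion.1 (h n)
    obtain ⟨k, hk⟩ := basis γ (mem_interior_iff_mem_nhds.1 hm)
    obtain ⟨i, hi⟩ := (TopologicalSpace.denseRange_denseSeq Γ).exists_mem_open (opC γ.1.1 γ.1.2 k)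
      ⟨γ, fun _ _ => rfl, fun _ _ => rfl⟩
    exact ⟨i, const n m γ k hk _ hi⟩
  have h6 : range (f (cons 0 γ.1.1)) = range (f (cons 0 δ.1.1)) := by
    apply Subset.antisymm
    · rintro _ ⟨n, rfl⟩
      obtain ⟨i, hi⟩ := key γ h3.1 n
      rw [hi, h5.2 n i, ← h3.2 n i]
      exact ⟨n, hi⟩
    · rintro _ ⟨n, rfl⟩
      obtain ⟨i, hi⟩ := key δ h5.1 n
      rw [hi, h3.2 n i, ← h5.2 n i]
      exact ⟨n, hi⟩
  rcases (H _ _).2 h6 with h | h | h
  · have h7 : γ.1.1 0 = δ.1.1 0 := congrFun h 1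
    have := h2.1 0 (by omega)
    have := h4.1 0 (by omega)
    omega
  · simp [cons] at h
  · simp [cons] at h

theorem result : ∃ E : (ℕ → ℕ) → (ℕ → ℕ) → Prop, Equivalence E ∧
    IsClosed {z : (ℕ → ℕ) × (ℕ → ℕ) | E z.1 z.2} ∧
    (∃ (Z : Type) (_ : TopologicalSpace Z) (_ : PolishSpace Z) (g : (ℕ → ℕ) → Z),
      @Measurable _ _ (borel _) (borel Z) g ∧ ∀ x y, E x y ↔ g x = g y) ∧
    ¬ ∃ f : (ℕ → ℕ) → ℕ → ℕ → ℕ, Continuous f ∧
      ∀ x y, E x y ↔ Set.range (f x) = Set.range (f y) := by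
  obtain ⟨g, h1, h2⟩ := smooth
  refine ⟨E, eqv, clE, ⟨ℕ → ℕ, inferInstance, inferInstance, g, ?_, h2⟩,
    fun ⟨f, h3, h4⟩ => nored f h3 h4⟩
  rwa [← BorelSpace.measurable_eq]

end Pool.Agent.Results.MP_b0da28_lc.NoReduction
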